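import Pool.Agent.Helper61.MI.Defs

set_option autoImplicit false

/-!
# Derivations of the function field and the lower bound for the log discrepancy
-/

noncomputable section

namespace Pool.Agent.Helper61.MI

open MvPolynomial

lemma dualHomK_algebraMap (i : Fin 3) (f : S) :
    dualHomK i (algebraMap S K f) = dualHom i f := by
  unfold dualHomK
  rw [IsLocalization.lift_eq]
  rfl

lemma fst_dualHomK (i : Fin 3) (f : K) : TrivSqZeroExt.fst (dualHomK i f) = f := by
  have h : (((TrivSqZeroExt.fstHom ℂ K K) : DualNumber K →+* K).comp (dualHomK i)) =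
      RingHom.id K := by
    apply IsLocalization.ringHom_ext (nonZeroDivisors S)
    apply RingHom.ext
    intro f
    simp only [RingHom.comp_apply, RingHom.id_apply, dualHomK_algebraMap]
    exact fst_dualHom i f
  exact DFunLike.congr_fun h f

theorem pd_add (i : Fin 3) (f g : K) : pd i (f + g) = pd i f + pd i g := by
  simp [pd, map_add]

theorem pd_mul (i : Fin 3) (f g : K) : pd i (f * g) = f * pd i g + g * pd i f := by
  simp [pd, map_mul, fst_dualHomK, mul_comm]

theorem pd_algebraMap (i : Fin 3) (f : S) :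
    pd i (algebraMap S K f) = algebraMap S K (pderiv i f) := by
  unfold pd
  rw [dualHomK_algebraMap]
  induction f using MvPolynomial.induction_on with
  | C a =>
    simp only [pderiv_C, map_zero]
    have : dualHom i (C a) = algebraMap ℂ (DualNumber K) a := by
      simp [dualHom]
    rw [this]
    rfl
  | add p q hp hq => simp [map_add, hp, hq]
  | mul_X p n hp =>
    rw [map_mul, TrivSqZeroExt.snd_mul, hp, fst_dualHom, fst_dualHom]
    have hX : TrivSqZeroExt.snd (dualHom i (X n)) = if n = i then (1 : K) else 0 := by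
      by_cases hn : n = i <;> simp [dualHom, hn]
    rw [hX, Derivation.leibniz, map_add]
    simp only [smul_eq_mul, map_mul, pderiv_X, Pi.single_apply]
    split_ifs <;> simp [mul_comm]

lemma pd_pow (i : Fin 3) (p : K) (n : ℕ) : p * pd i (p ^ n) = n * p ^ n * pd i p := by
  induction n with
  | zero =>
    have h := pd_mul i 1 1
    simp at h
    simp [h]
  | succ n ih =>
    rw [pow_succ, pd_mul, mul_add]
    have : p * (p * pd i (p ^ n)) = p * (n * p ^ n * pd i p) := by rw [ih]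
    push_cast
    linear_combination this

lemma v_const (v : AddValuation K (WithTop ℤ)) (hv : ∀ f : S, 0 ≤ v (algebraMap S K f))
    (k : ℂ) (hk : k ≠ 0) : v (algebraMap S K (C k)) = 0 := by
  have h1 := hv (C k)
  have h2 := hv (C k⁻¹)
  have h3 : v (algebraMap S K (C k)) + v (algebraMap S K (C k⁻¹)) = 0 := by
    rw [← v.map_mul, ← map_mul, ← map_mul, mul_inv_cancel₀ hk]
    simp
  refine le_antisymm ?_ h1
  calc v (algebraMap S K (C k)) = v (algebraMap S K (C k)) + 0 := by simp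
    _ ≤ v (algebraMap S K (C k)) + v (algebraMap S K (C k⁻¹)) := by gcongr
    _ = 0 := h3

lemma pd_lin (j : Fin 3) (a : Fin 3 → ℂ) :
    pd j (algebraMap S K (lin a)) = algebraMap S K (C (a j)) := by
  rw [pd_algebraMap]
  congr 1
  simp only [lin, map_sum, Derivation.leibniz, pderiv_C, pderiv_X, smul_eq_mul, mul_zero,
    add_zero, Pi.single_apply]
  simp

lemma v_det_lin (v : AddValuation K (WithTop ℤ)) (hv : ∀ f : S, 0 ≤ v (algebraMap S K f))
    (ℓ : Fin 3 → Fin 3 → ℂ) (hℓ : LinearIndependent ℂ ℓ) :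
    v (jac fun i => algebraMap S K (lin (ℓ i))) = 0 := by
  have h : (jac fun i => algebraMap S K (lin (ℓ i))) =
      algebraMap S K (C (Matrix.of ℓ).det) := by
    unfold jac
    have h2 : (Matrix.of fun i j => pd j (algebraMap S K (lin (ℓ i)))) =
        ((algebraMap S K).comp (C : ℂ →+* S)).mapMatrix (Matrix.of ℓ) := by
      ext i j
      simp [pd_lin]
    rw [h2, ← RingHom.map_det]
    rfl
  rw [h]
  apply v_const v hv
  intro h0
  have := Matrix.linearIndependent_rows_iff_isUnit (A := (Matrix.of ℓ)) |>.1 hℓ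
  rw [Matrix.isUnit_iff_isUnit_det, h0] at this
  exact not_isUnit_zero this

lemma le_one_sub_toE (x : WithTop ℤ) (N : ℕ) (h : x ≤ ((1 - (N : ℤ) : ℤ) : WithTop ℤ)) :
    ((N : ℝ) : EReal) ≤ 1 - toE x := by
  induction x using WithTop.recTopCoe with
  | top => exact absurd h (by simp)
  | coe m =>
    have hm : m ≤ 1 - (N : ℤ) := WithTop.coe_le_coe.1 h
    have hm' : (m : ℝ) ≤ 1 - (N : ℝ) := by exact_mod_cast hm
    show ((N : ℝ) : EReal) ≤ 1 - ((m : ℝ) : EReal)
    have : (1 : EReal) - ((m : ℝ) : EReal) = ((1 - (m : ℝ) : ℝ) : EReal) := by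
      rw [EReal.coe_sub, EReal.coe_one]
    rw [this]
    exact EReal.coe_le_coe_iff.2 (by linarith)

lemma le_logDisc_of (v : AddValuation K (WithTop ℤ)) (h : Fin 3 → K) (hh : ∀ i, 0 ≤ v (h i))
    (N : ℕ) (hN : v (jac h) ≤ ((1 - (N : ℤ) : ℤ) : WithTop ℤ)) :
    ((N : ℝ) : EReal) ≤ logDisc v :=
  (le_one_sub_toE _ N hN).trans
    (le_iSup₂ (f := fun (h : Fin 3 → K) (_ : ∀ i, 0 ≤ v (h i)) => 1 - toE (v (jac h))) h hh)

lemma jac_identity (π : K) (n : Fin 3 → ℕ) (u : Fin 3 → K) (hπ : π ≠ 0) :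
    π * jac (fun i => π ^ n i * u i) = π ^ (n 0 + n 1 + n 2) *
      (π * jac u + (n 0 * u 0) * jac ![π, u 1, u 2] + (n 1 * u 1) * jac ![u 0, π, u 2] +
        (n 2 * u 2) * jac ![u 0, u 1, π]) := by
  have key : ∀ i j, π * pd j (π ^ n i * u i) =
      π ^ n i * (π * pd j (u i) + (n i * u i) * pd j π) := by
    intro i j
    rw [pd_mul]
    have := pd_pow j π (n i)
    linear_combination (u i) * this
  have h3 : π ^ 2 ≠ 0 := pow_ne_zero 2 hπ
  apply mul_left_cancel₀ h3
  have e1 : π ^ 2 * (π * jac (fun i => π ^ n i * u i)) =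
      (Matrix.of fun i j => π * pd j (π ^ n i * u i)).det := by
    unfold jac
    simp only [Matrix.det_fin_three, Matrix.of_apply]
    ring
  rw [e1]
  have e2 : (Matrix.of fun i j => π * pd j (π ^ n i * u i)) =
      (Matrix.of fun i j => π ^ n i * (π * pd j (u i) + (n i * u i) * pd j π)) := by
    ext i j
    simp only [Matrix.of_apply, key]
  rw [e2]
  unfold jac
  simp only [Matrix.det_fin_three, Matrix.of_apply, Matrix.cons_val_zero, Matrix.cons_val_one,
    Matrix.cons_val_two, Matrix.head_cons, Matrix.tail_cons]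
  ring

theorem le_logDisc (v : AddValuation K (WithTop ℤ)) (hv : IsDivisorial v)
    (ℓ : Fin 3 → Fin 3 → ℂ) (hℓ : LinearIndependent ℂ ℓ) (n : Fin 3 → ℕ)
    (hn : ∀ i, v (algebraMap S K (lin (ℓ i))) = ((n i : ℤ) : WithTop ℤ)) :
    (((n 0 + n 1 + n 2 : ℕ) : ℝ) : EReal) ≤ logDisc v := by
  obtain ⟨hpos, ⟨π, hπ⟩, -⟩ := hv
  have hπ0 : π ≠ 0 := by
    rintro rfl
    rw [v.map_zero] at hπ
    exact absurd hπ (by decide)
  have hvpow : ∀ k : ℕ, v (π ^ k) = ((k : ℤ) : WithTop ℤ) := by
    intro k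
    rw [v.map_pow, hπ]
    simp
  set u : Fin 3 → K := fun i => algebraMap S K (lin (ℓ i)) / π ^ n i with hu
  have hgu : ∀ i, π ^ n i * u i = algebraMap S K (lin (ℓ i)) := by
    intro i
    rw [hu]
    field_simp
  have hvu : ∀ i, v (u i) = 0 := by
    intro i
    have h1 : v (π ^ n i) + v (u i) = ((n i : ℤ) : WithTop ℤ) := by
      rw [← v.map_mul, hgu, hn]
    rw [hvpow] at h1
    have h2 : v (u i) + ((n i : ℤ) : WithTop ℤ) = 0 + ((n i : ℤ) : WithTop ℤ) := by
      rw [add_comm, h1, zero_add]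
    exact (WithTop.add_right_inj (WithTop.coe_ne_top)).1 h2
  set N : ℕ := n 0 + n 1 + n 2 with hN
  have hid := jac_identity π n u hπ0
  have hjac : (fun i => π ^ n i * u i) = fun i => algebraMap S K (lin (ℓ i)) := by
    funext i
    exact hgu i
  rw [hjac, ← hN] at hid
  have hval := congrArg v hid
  rw [v.map_mul, v.map_mul, v_det_lin v hpos ℓ hℓ, hπ, hvpow, add_zero] at hval
  set T := π * jac u + (n 0 * u 0) * jac ![π, u 1, u 2] + (n 1 * u 1) * jac ![u 0, π, u 2] +
        (n 2 * u 2) * jac ![u 0, u 1, π] with hT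
  have hvT : ¬ (((1 - (N : ℤ) : ℤ) : WithTop ℤ) < v T) := by
    intro hlt
    have h1 : ((N : ℤ) : WithTop ℤ) + ((1 - (N : ℤ) : ℤ) : WithTop ℤ) <
        ((N : ℤ) : WithTop ℤ) + v T := WithTop.add_lt_add_left WithTop.coe_ne_top hlt
    rw [← hval, ← WithTop.coe_add] at h1
    simp at h1
  have hnat : ∀ k : ℕ, 0 ≤ v (k : K) := by
    intro k
    have := hpos (k : S)
    simpa using this
  have hcase : v (π * jac u) ≤ ((1 - (N : ℤ) : ℤ) : WithTop ℤ) ∨
      v ((n 0 * u 0) * jac ![π, u 1, u 2]) ≤ ((1 - (N : ℤ) : ℤ) : WithTop ℤ) ∨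
      v ((n 1 * u 1) * jac ![u 0, π, u 2]) ≤ ((1 - (N : ℤ) : ℤ) : WithTop ℤ) ∨
      v ((n 2 * u 2) * jac ![u 0, u 1, π]) ≤ ((1 - (N : ℤ) : ℤ) : WithTop ℤ) := by
    by_contra hcon
    push Not at hcon
    exact hvT (v.map_lt_add (v.map_lt_add (v.map_lt_add hcon.1 hcon.2.1) hcon.2.2.1) hcon.2.2.2)
  have hred : ∀ (c J : K) , 0 ≤ v c → v (c * J) ≤ ((1 - (N : ℤ) : ℤ) : WithTop ℤ) →
      v J ≤ ((1 - (N : ℤ) : ℤ) : WithTop ℤ) := by
    intro c J hc hle
    rw [v.map_mul] at hle
    calc v J = 0 + v J := by simp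
      _ ≤ v c + v J := by gcongr
      _ ≤ _ := hle
  have hcoef : ∀ i, 0 ≤ v ((n i : K) * u i) := by
    intro i
    rw [v.map_mul, hvu, add_zero]
    exact hnat _
  have hπ1 : (0 : WithTop ℤ) ≤ v π := by rw [hπ]; exact zero_le_one
  rcases hcase with h | h | h | h
  · exact le_logDisc_of v u (fun i => (hvu i).ge) N (hred _ _ hπ1 h)
  · refine le_logDisc_of v _ ?_ N (hred _ _ (hcoef 0) h)
    intro i
    fin_cases i <;> simp [hπ1, hvu]
  · refine le_logDisc_of v _ ?_ N (hred _ _ (hcoef 1) h)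
    intro i
    fin_cases i <;> simp [hπ1, hvu]
  · refine le_logDisc_of v _ ?_ N (hred _ _ (hcoef 2) h)
    intro i
    fin_cases i <;> simp [hπ1, hvu]

theorem one_le_logDisc (v : AddValuation K (WithTop ℤ)) (hv : IsDivisorial v) :
    (1 : EReal) ≤ logDisc v := by
  have h := le_logDisc_of v (fun i => algebraMap S K (X i)) (fun i => hv.1 _) 1 ?_
  · simpa using h
  · have hj : (jac fun i => algebraMap S K (X i)) = 1 := by
      unfold jac
      have : (Matrix.of fun i j => pd j (algebraMap S K (X i))) = (1 : Matrix (Fin 3) (Fin 3) K) := by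
        ext i j
        rw [Matrix.of_apply, pd_algebraMap, pderiv_X, Matrix.one_apply]
        by_cases hij : i = j
        · subst hij; simp
        · simp [hij]
      rw [this, Matrix.det_one]
    rw [hj, v.map_one]
    simp

end Pool.Agent.Helper61.MI
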